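import Mathlib

set_option autoImplicit false

/-!
# Covering subgroups: a bound when `H` has a short series with abelian or small factors

Let `H` be a normal subgroup of the finite group `A` and `U ≤ H` a subgroup whose conjugates under
`A` cover `H`. Suppose that there are normal subgroups `1 = V_0 ≤ V_1 ≤ ... ≤ V_ℓ = H` of `A` such
that each factor `V_{i+1} / V_i` is abelian or has order at most `m` (`m ≥ 1`). Then
`|H : U| ≤ (m |A : H|) ^ (2 ^ ℓ - 1)`. In particular `|H : U| ≤ |A : H| ^ (2 ^ ℓ - 1)` if `H` is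
soluble of derived length at most `ℓ`.

Proof. Let `U_i = U V_i` and `q_i = |H : U_i|`. If `V_{i+1} / V_i` is abelian then
`W = U_i ∩ V_{i+1}` is normalised by `U_i` and by `V_{i+1}`, so it has at most
`|A : U_{i+1}| = |A : H| q_{i+1}` conjugates in `A`; they cover `V_{i+1}`. Hence
`|U_{i+1} : U_i| = |V_{i+1} : W| ≤ |A : H| q_{i+1}` and `q_i ≤ |A : H| q_{i+1} ^ 2`.
-/

namespace Pool.Agent.W5h21.CV

open Subgroup
open scoped commutatorElement Pointwise

section
variable {A : Type} [Group A] [Finite A]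

theorem relIndex_sup_eq (U V : Subgroup A) [V.Normal] : U.relIndex (U ⊔ V) = U.relIndex V := by
  have h1 : (U ⊓ V).relIndex U * U.relIndex (U ⊔ V) = (U ⊓ V).relIndex (U ⊔ V) :=
    relIndex_mul_relIndex _ _ _ inf_le_left le_sup_left
  have h2 : (U ⊓ V).relIndex V * V.relIndex (U ⊔ V) = (U ⊓ V).relIndex (U ⊔ V) :=
    relIndex_mul_relIndex _ _ _ inf_le_right le_sup_right
  rw [inf_relIndex_left] at h1
  rw [inf_relIndex_right, relIndex_sup_right] at h2
  have h3 : V.relIndex U ≠ 0 := Subgroup.index_ne_zero_of_finite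
  exact Nat.eq_of_mul_eq_mul_left (Nat.pos_of_ne_zero h3) (by rw [h1, ← h2, mul_comm])

/-- If the conjugates of `W` cover `V` and `N` normalises `W` then `|V| ≤ |A : N| |W|`. -/
theorem card_le (V W N : Subgroup A) (hN : ∀ k ∈ N, ∀ w ∈ W, k⁻¹ * w * k ∈ W)
    (hcov : ∀ v ∈ V, ∃ a : A, a * v * a⁻¹ ∈ W) : Nat.card V ≤ N.index * Nat.card W := by
  have h0 : ∀ v : V, ∃ b : A, b⁻¹ * (v : A) * b ∈ W := by
    intro v
    obtain ⟨a, ha⟩ := hcov v v.2
    exact ⟨a⁻¹, by rwa [inv_inv]⟩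
  choose b hb using h0
  have h1 : ∀ v : V, ((b v : A ⧸ N).out)⁻¹ * (v : A) * (b v : A ⧸ N).out ∈ W := by
    intro v
    obtain ⟨k, hk⟩ := QuotientGroup.mk_out_eq_mul N (b v)
    rw [hk]
    have h2 : (b v * (k : A))⁻¹ * (v : A) * (b v * (k : A)) =
        (k : A)⁻¹ * ((b v)⁻¹ * (v : A) * b v) * (k : A) := by group
    rw [h2]
    exact hN k k.2 _ (hb v)
  let f : V → (A ⧸ N) × W := fun v => ((b v : A ⧸ N), ⟨_, h1 v⟩)
  have hf : Function.Injective f := by
    intro v v' h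
    have e1 : (b v : A ⧸ N) = (b v' : A ⧸ N) := congrArg Prod.fst h
    have e2 : ((b v : A ⧸ N).out)⁻¹ * (v : A) * (b v : A ⧸ N).out =
        ((b v' : A ⧸ N).out)⁻¹ * (v' : A) * (b v' : A ⧸ N).out :=
      congrArg (fun x => ((x.2 : W) : A)) h
    rw [e1] at e2
    exact Subtype.ext (mul_left_cancel (mul_right_cancel e2))
  have h3 := Nat.card_le_card_of_injective f hf
  rw [Nat.card_prod] at h3
  exact h3

omit [Finite A] in
theorem conj_stable (U V V' : Subgroup A) [hVn : V.Normal] (hU : V' ≤ U) (hV : V' ≤ V)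
    (hc : ⁅V, V⁆ ≤ V') (k : A) (hk : k ∈ U ⊔ V) :
    ∀ w ∈ U ⊓ V, k⁻¹ * w * k ∈ U ⊓ V := by
  have hW : ∀ k ∈ V, ∀ w ∈ U ⊓ V, k * w * k⁻¹ ∈ U ⊓ V := by
    intro k hk w hw
    have h1 : k * w * k⁻¹ = ⁅k, w⁆ * w := by rw [commutatorElement_def]; group
    rw [h1]
    have h2 : ⁅k, w⁆ ∈ V' := hc (Subgroup.commutator_mem_commutator hk hw.2)
    exact (U ⊓ V).mul_mem ⟨hU h2, hV h2⟩ hw
  have hW2 : ∀ k ∈ U, ∀ w ∈ U ⊓ V, k * w * k⁻¹ ∈ U ⊓ V := fun k hk w hw =>
    ⟨U.mul_mem (U.mul_mem hk hw.1) (U.inv_mem hk), hVn.conj_mem w hw.2 k⟩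
  obtain ⟨u, hu, v, hv, rfl⟩ : ∃ u ∈ U, ∃ v ∈ V, u * v = k := by
    have h1 : k ∈ (U : Set A) * (V : Set A) := by
      rw [← Subgroup.mul_normal U V]
      exact hk
    obtain ⟨u, hu, v, hv, h⟩ := h1
    exact ⟨u, hu, v, hv, h⟩
  intro w hw
  have h1 := hW2 u⁻¹ (U.inv_mem hu) w hw
  have h2 := hW v⁻¹ (V.inv_mem hv) _ h1
  have h3 : (u * v)⁻¹ * w * (u * v) = v⁻¹ * (u⁻¹ * w * u⁻¹⁻¹) * v⁻¹⁻¹ := by group
  rw [h3]
  exact h2

theorem step (H U V V' : Subgroup A) [V.Normal] (hUH : U ≤ H) (hVH : V ≤ H) (hU : V' ≤ U)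
    (hV : V' ≤ V) (hc : ⁅V, V⁆ ≤ V') (hcov : ∀ h ∈ H, ∃ a : A, a * h * a⁻¹ ∈ U) :
    U.relIndex H ≤ H.index * (U ⊔ V).relIndex H ^ 2 := by
  have hle : U ⊔ V ≤ H := sup_le hUH hVH
  have hcard : Nat.card V ≤ (U ⊔ V).index * Nat.card (U ⊓ V : Subgroup A) := by
    refine card_le V (U ⊓ V) (U ⊔ V) (fun k hk => conj_stable U V V' hU hV hc k hk) ?_
    intro v hv
    obtain ⟨a, ha⟩ := hcov v (hVH hv)
    exact ⟨a, ha, ‹V.Normal›.conj_mem v hv a⟩
  have h1 : U.relIndex V ≤ (U ⊔ V).index := by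
    have h2 : (⊥ : Subgroup A).relIndex (U ⊓ V) * (U ⊓ V).relIndex V = (⊥ : Subgroup A).relIndex V :=
      relIndex_mul_relIndex _ _ _ bot_le inf_le_right
    rw [relIndex_bot_left, relIndex_bot_left, inf_relIndex_right] at h2
    rw [← h2, mul_comm] at hcard
    exact Nat.le_of_mul_le_mul_right hcard Nat.card_pos
  have h2 : (U ⊔ V).relIndex H * H.index = (U ⊔ V).index := relIndex_mul_index hle
  have h3 : U.relIndex (U ⊔ V) * (U ⊔ V).relIndex H = U.relIndex H :=
    relIndex_mul_relIndex _ _ _ le_sup_left hle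
  rw [← h3, relIndex_sup_eq]
  calc U.relIndex V * (U ⊔ V).relIndex H ≤ (U ⊔ V).index * (U ⊔ V).relIndex H :=
        Nat.mul_le_mul_right _ h1
    _ = H.index * (U ⊔ V).relIndex H ^ 2 := by rw [← h2]; ring

theorem step' (H U V V' : Subgroup A) [V.Normal] (hUH : U ≤ H) (hVH : V ≤ H) (hU : V' ≤ U)
    (hV : V' ≤ V) {m : ℕ} (hm : V'.relIndex V ≤ m) :
    U.relIndex H ≤ m * (U ⊔ V).relIndex H := by
  have hle : U ⊔ V ≤ H := sup_le hUH hVH
  have h3 : U.relIndex (U ⊔ V) * (U ⊔ V).relIndex H = U.relIndex H :=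
    relIndex_mul_relIndex _ _ _ le_sup_left hle
  rw [← h3, relIndex_sup_eq]
  refine Nat.mul_le_mul_right _ (le_trans ?_ hm)
  have h1 : V'.relIndex (U ⊓ V) * (U ⊓ V).relIndex V = V'.relIndex V :=
    relIndex_mul_relIndex _ _ _ (le_inf hU hV) inf_le_right
  rw [inf_relIndex_right] at h1
  rw [← h1]
  exact Nat.le_mul_of_pos_left _ (Nat.pos_of_ne_zero Subgroup.index_ne_zero_of_finite)

theorem chain (H U : Subgroup A) (hUH : U ≤ H) (hcov : ∀ h ∈ H, ∃ a : A, a * h * a⁻¹ ∈ U)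
    (m l : ℕ) (hm : 1 ≤ m) (V : ℕ → Subgroup A) (hVn : ∀ i, (V i).Normal) (h0 : V 0 = ⊥)
    (hl : V l = H) (hV : ∀ i < l, V i ≤ V (i + 1) ∧
      (⁅V (i + 1), V (i + 1)⁆ ≤ V i ∨ (V i).relIndex (V (i + 1)) ≤ m)) :
    U.relIndex H ≤ (m * H.index) ^ (2 ^ l - 1) := by
  have hVH : ∀ k ≤ l, V (l - k) ≤ H := by
    intro k
    induction k with
    | zero =>
      intro _
      rw [Nat.sub_zero, hl]
    | succ k ih =>
      intro hk
      have h1 := (hV (l - (k + 1)) (by omega)).1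
      rw [show l - (k + 1) + 1 = l - k by omega] at h1
      exact h1.trans (ih (by omega))
  have hn : 1 ≤ H.index := Nat.pos_of_ne_zero Subgroup.index_ne_zero_of_finite
  have main : ∀ k ≤ l, (U ⊔ V (l - k)).relIndex H ≤ (m * H.index) ^ (2 ^ k - 1) := by
    intro k
    induction k with
    | zero =>
      intro _
      rw [Nat.sub_zero, hl, sup_eq_right.2 hUH, relIndex_self]
      simp
    | succ k ih =>
      intro hk
      have ih' := ih (by omega)
      obtain ⟨h1, h2⟩ := hV (l - (k + 1)) (by omega)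
      rw [show l - (k + 1) + 1 = l - k by omega] at h1 h2
      have hN : (V (l - k)).Normal := hVn _
      have e : (U ⊔ V (l - (k + 1))) ⊔ V (l - k) = U ⊔ V (l - k) := by
        rw [sup_assoc, sup_eq_right.2 h1]
      have hB : 1 ≤ (m * H.index) ^ (2 ^ k - 1) := Nat.one_le_pow _ _ (by positivity)
      have e2 : (m * H.index) ^ (2 ^ (k + 1) - 1) =
          m * H.index * ((m * H.index) ^ (2 ^ k - 1)) ^ 2 := by
        rw [← pow_mul, ← pow_succ']
        congr 1
        have : 1 ≤ 2 ^ k := Nat.one_le_two_pow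
        rw [pow_succ]
        omega
      rw [e2]
      rcases h2 with h2 | h2
      · have h3 := step H (U ⊔ V (l - (k + 1))) (V (l - k)) (V (l - (k + 1)))
          (sup_le hUH (hVH _ hk)) (hVH _ (by omega)) le_sup_right h1 h2 (fun h hh => by
            obtain ⟨a, ha⟩ := hcov h hh
            exact ⟨a, (le_sup_left : U ≤ _) ha⟩)
        rw [e] at h3
        refine h3.trans ?_
        refine Nat.mul_le_mul (Nat.le_mul_of_pos_left _ hm) (Nat.pow_le_pow_left ih' 2)
      · have h3 := step' H (U ⊔ V (l - (k + 1))) (V (l - k)) (V (l - (k + 1)))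
          (sup_le hUH (hVH _ hk)) (hVH _ (by omega)) le_sup_right h1 h2
        rw [e] at h3
        refine h3.trans ?_
        refine Nat.mul_le_mul (Nat.le_mul_of_pos_right _ hn) (ih'.trans ?_)
        exact Nat.le_self_pow two_ne_zero _
  have h1 := main l le_rfl
  rw [Nat.sub_self, h0, sup_bot_eq] at h1
  exact h1

end

/-- RESULT. Let `H` be a normal subgroup of the finite group `A` and let `U ≤ H` be such that the
`A`-conjugates of `U` cover `H`. (1) If `H` has a series of length `l` of normal subgroups of `A` whose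
factors are abelian or of order at most `m`, then `|H : U| ≤ (m |A : H|) ^ (2 ^ l - 1)`. (2) If `H` is
soluble of derived length at most `l`, then `|H : U| ≤ |A : H| ^ (2 ^ l - 1)`. -/
theorem result (A : Type) [Group A] [Finite A] (H U : Subgroup A) (hH : H.Normal) (hUH : U ≤ H)
    (hcov : ∀ h ∈ H, ∃ a : A, a * h * a⁻¹ ∈ U) (l : ℕ) :
    (∀ m : ℕ, 1 ≤ m → ∀ V : ℕ → Subgroup A, (∀ i, (V i).Normal) → V 0 = ⊥ → V l = H →
      (∀ i < l, V i ≤ V (i + 1) ∧
        (⁅V (i + 1), V (i + 1)⁆ ≤ V i ∨ (V i).relIndex (V (i + 1)) ≤ m)) →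
      (U.subgroupOf H).index ≤ (m * H.index) ^ (2 ^ l - 1)) ∧
    (derivedSeries H l = ⊥ → (U.subgroupOf H).index ≤ H.index ^ (2 ^ l - 1)) := by
  refine ⟨fun m hm V hVn h0 hl hV => chain H U hUH hcov m l hm V hVn h0 hl hV, fun hd => ?_⟩
  have h := chain H U hUH hcov 1 l le_rfl
    (fun i => (derivedSeries H (l - i)).map H.subtype)
    (fun i => ConjAct.normal_of_characteristic_of_normal) (by
      rw [Nat.sub_zero, hd, Subgroup.map_bot]) (by
      rw [Nat.sub_self, derivedSeries_zero, ← MonoidHom.range_eq_map, Subgroup.range_subtype]) (by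
      intro i hi
      have e : l - i = l - (i + 1) + 1 := by omega
      refine ⟨Subgroup.map_mono (derivedSeries_antitone H (by omega)), Or.inl ?_⟩
      show ⁅(derivedSeries H (l - (i + 1))).map H.subtype,
        (derivedSeries H (l - (i + 1))).map H.subtype⁆ ≤ (derivedSeries H (l - i)).map H.subtype
      rw [← Subgroup.map_commutator, e, derivedSeries_succ])
  rwa [one_mul] at h

end Pool.Agent.W5h21.CV
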